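import Pool.Agent.H615R3.InvF
import Pool.Agent.H615R3.InvUF
import Pool.Agent.H615R3.InvTop
import Pool.Agent.Helper25R3.Star

set_option autoImplicit false

/-!
# Recurrence of the inverse of an invertible operator: the answer for all six properties

The inverse of an invertible operator on a Fréchet space inherits reiterative, uniform,
`IP*`- and `Δ*`-recurrence, but neither frequent nor `𝒰`-frequent recurrence.
-/

namespace Pool.Agent.Results.MP_3e9a14_an.AllSix

open Pool.Agent.H615R3 Pool.Agent.Helper25R3.Star Filter Topology ZeroAtInfty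

universe u v

/-- `x` is recurrent for `T` with respect to the family `R` of sets of positive integers: every
return set `{n ≥ 1 : T^n x ∈ U}`, `U` a neighbourhood of `x`, is in `R`. -/
def Rec (R : Set ℕ → Prop) {X : Type*} [TopologicalSpace X] (T : X → X) (x : X) : Prop :=
  ∀ U ∈ 𝓝 x, R (retSet T x U)

/-- `T` has the recurrence property given by `R`: the recurrent vectors are dense. -/
def HasRec (R : Set ℕ → Prop) {X : Type*} [TopologicalSpace X] (T : X → X) : Prop :=
  Dense {x | Rec R T x}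

/-- Sets of positive lower density (frequent recurrence). -/
def LowerPos (A : Set ℕ) : Prop := 0 < lowerDensity A

/-- Sets of positive upper density (`𝒰`-frequent recurrence). -/
def UpperPos (A : Set ℕ) : Prop := 0 < upperDensity A

/-- Sets of positive upper Banach density (reiterative recurrence). -/
def BanachPos (A : Set ℕ) : Prop := 0 < upperBanachDensity A

/-- The property `R` does not pass to inverses: there is an invertible operator on a Banach space
with the property `R` whose inverse has no nonzero vector that is recurrent with respect to `R`. -/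
def Fails (𝕜 : Type u) [RCLike 𝕜] (R : Set ℕ → Prop) : Prop :=
  ∃ (X : Type u) (_ : NormedAddCommGroup X) (_ : NormedSpace 𝕜 X) (_ : CompleteSpace X)
    (T : X ≃L[𝕜] X), HasRec R T ∧ ¬ HasRec R T.symm ∧ ∀ x, Rec R T.symm x → x = 0

/-- The property `R` passes to inverses of invertible operators on complete metrizable
topological vector spaces (in particular on Fréchet spaces). -/
def Passes (𝕜 : Type u) [RCLike 𝕜] (R : Set ℕ → Prop) : Prop :=
  ∀ (X : Type v) [AddCommGroup X] [Module 𝕜 X] [UniformSpace X] [IsUniformAddGroup X]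
    [ContinuousSMul 𝕜 X] [CompleteSpace X] [T2Space X] [(uniformity X).IsCountablyGenerated]
    (T : X ≃L[𝕜] X), HasRec R T → HasRec R T.symm

/-- An invertible operator on a Hausdorff topological vector space and its inverse have the same
`R`-recurrent vectors. -/
def Same (𝕜 : Type u) [RCLike 𝕜] (R : Set ℕ → Prop) : Prop :=
  ∀ (X : Type v) [AddCommGroup X] [Module 𝕜 X] [TopologicalSpace X] [IsTopologicalAddGroup X]
    [ContinuousSMul 𝕜 X] [T2Space X] (T : X ≃L[𝕜] X) (x : X), Rec R T x ↔ Rec R T.symm x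

lemma Same.passes {𝕜 : Type u} [RCLike 𝕜] {R : Set ℕ → Prop} (h : Same.{u, v} 𝕜 R) :
    Passes.{u, v} 𝕜 R := by
  intro X _ _ _ _ _ _ _ _ T hT
  exact hT.mono fun x hx => (h X T x).1 hx

/-- Let `𝕜` be `ℝ` or `ℂ`. Frequent and `𝒰`-frequent recurrence do not pass to the inverse;
reiterative, uniform, `IP*`- and `Δ*`-recurrence do, and for the last three the recurrent vectors
of an invertible operator and of its inverse coincide. -/
theorem result (𝕜 : Type u) [RCLike 𝕜] :
    Fails 𝕜 LowerPos ∧ Fails 𝕜 UpperPos ∧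
    Passes.{u, v} 𝕜 BanachPos ∧ Passes.{u, v} 𝕜 Syndetic ∧ Passes.{u, v} 𝕜 IPStar ∧
    Passes.{u, v} 𝕜 DeltaStar ∧
    Same.{u, v} 𝕜 Syndetic ∧ Same.{u, v} 𝕜 IPStar ∧ Same.{u, v} 𝕜 DeltaStar := by
  have s1 : Same.{u, v} 𝕜 Syndetic := fun X _ _ _ _ _ _ T x =>
    ⟨fun hx => IsURec.inv T.symm.continuous T.symm_apply_apply hx,
      fun hx => IsURec.inv T.continuous T.apply_symm_apply hx⟩
  have s2 : Same.{u, v} 𝕜 IPStar := fun X _ _ _ _ _ _ T x =>
    ⟨fun hx => IsIPRec.inv T.toHomeomorph hx, fun hx => IsIPRec.inv T.symm.toHomeomorph hx⟩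
  have s3 : Same.{u, v} 𝕜 DeltaStar := fun X _ _ _ _ _ _ T x =>
    ⟨fun hx => IsDeltaRec.inv T.symm.continuous T.symm_apply_apply hx,
      fun hx => IsDeltaRec.inv T.continuous T.apply_symm_apply hx⟩
  refine ⟨?_, ?_, ?_, s1.passes, s2.passes, s3.passes, s1, s2, s3⟩
  · have h0 : ∀ x : C₀(ℤ, 𝕜), IsFRec (Inv.Design.op 𝕜 Inv.F.D).symm x → x = 0 := fun x hx =>
      Inv.F.D.inv_zero FR.BigL Inv.F.no_big x ((isFRec_iff _ x).1 hx)
    refine ⟨C₀(ℤ, 𝕜), inferInstance, inferInstance, inferInstance, Inv.Design.op 𝕜 Inv.F.D, ?_,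
      Inv.not_dense_of_zero h0, h0⟩
    have h1 := Inv.F.D.dense_rec (𝕜 := 𝕜) FR.BigL (fun S S' h hS => hS.mono h) Inv.F.big_A
    exact h1.mono fun x hx => (isFRec_iff _ x).2 hx
  · have h0 : ∀ x : C₀(ℤ, 𝕜), IsUFRec (Inv.Design.op 𝕜 Inv.U.D).symm x → x = 0 := fun x hx =>
      Inv.U.D.inv_zero UF.BigU Inv.U.no_big x ((isUFRec_iff _ x).1 hx)
    refine ⟨C₀(ℤ, 𝕜), inferInstance, inferInstance, inferInstance, Inv.Design.op 𝕜 Inv.U.D, ?_,
      Inv.not_dense_of_zero h0, h0⟩
    have h1 := Inv.U.D.dense_rec (𝕜 := 𝕜) UF.BigU (fun S S' h hS => hS.mono h) Inv.U.big_A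
    exact h1.mono fun x hx => (isUFRec_iff _ x).2 hx
  · intro X _ _ _ _ _ _ _ _ T h
    have key0 : {x | Rec BanachPos T x} ⊆ closure {z | Rec BanachPos T.symm z} := fun x hx =>
      IsRRec.inv_closure T.symm.continuous T.continuous T.symm_apply_apply T.apply_symm_apply hx
    have h2 : Dense (closure {z | Rec BanachPos T.symm z}) := h.mono key0
    exact dense_closure.1 h2

end Pool.Agent.Results.MP_3e9a14_an.AllSix
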